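import Pool.Agent.Helper25.FN.Spec

set_option autoImplicit false

/-!
# Swarm FN (MP_6e521b_an), part GR2: closure of the growth classes
-/

namespace Pool.Agent.Helper45.FN.GR2

open Pool.Agent.Helper25.FN
open Pool.Agent.Helper25.FB.Inj (Entire)
open scoped ContDiff

variable {n : ℕ}

lemma nm_nonneg (z : V n) : 0 ≤ nm z := Real.sqrt_nonneg _

lemma norm_le_nm (z : V n) (i : Fin n) : ‖z i‖ ≤ nm z := by
  unfold nm
  apply Real.le_sqrt_of_sq_le
  exact Finset.single_le_sum (f := fun j => ‖z j‖ ^ 2) (fun j _ => by positivity)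
    (Finset.mem_univ i)

lemma nm_eq (z : V n) : nm z = ‖(WithLp.toLp 2 z : EuclideanSpace ℂ (Fin n))‖ := by
  rw [EuclideanSpace.norm_eq]; rfl

lemma nm_add_le (z w : V n) : nm (z + w) ≤ nm z + nm w := by
  simp only [nm_eq]
  exact norm_add_le (WithLp.toLp 2 z : EuclideanSpace ℂ (Fin n)) (WithLp.toLp 2 w)

lemma nm_neg (z : V n) : nm (-z) = nm z := by
  unfold nm; simp

lemma nm_single (j : Fin n) (c : ℂ) : nm (Pi.single j c : V n) = ‖c‖ := by
  unfold nm
  rw [Finset.sum_eq_single j]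
  · simp
  · intro b _ hb
    simp [hb]
  · simp

lemma zpow_cmp (a b : ℝ) (ha : 0 < a) (hb : 0 < b) (h1 : a ≤ 2 * b) (h2 : b ≤ 2 * a) (s : ℤ) :
    a ^ s ≤ 2 ^ s.natAbs * b ^ s := by
  obtain ⟨m, rfl | rfl⟩ := s.eq_nat_or_neg
  · simp only [zpow_natCast, Int.natAbs_natCast]
    rw [← mul_pow]
    exact pow_le_pow_left₀ ha.le h1 m
  · simp only [zpow_neg, zpow_natCast, Int.natAbs_neg, Int.natAbs_natCast]
    have h3 : b ^ m ≤ (2 * a) ^ m := pow_le_pow_left₀ hb.le h2 m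
    rw [mul_pow] at h3
    have ha' : 0 < a ^ m := pow_pos ha m
    have hb' : 0 < b ^ m := pow_pos hb m
    rw [← div_eq_mul_inv, le_div_iff₀ hb', inv_mul_le_iff₀ ha']
    linarith [mul_comm (a ^ m) (2 ^ m)]

lemma lip (Φ : V n → ℝ) (hΦ : ContDiff ℝ ∞ Φ) (hs : Sym 1 (fun z => (Φ z : ℂ))) :
    ∃ L : ℝ, ∀ z w : V n, Φ w ≤ Φ z + L * ‖w - z‖ := by
  obtain ⟨hc, hb⟩ := hs
  obtain ⟨L, hL⟩ := hb 1
  refine ⟨L, fun z w => ?_⟩
  have h1 : ∀ x ∈ (Set.univ : Set (V n)), ‖fderiv ℝ (fun z => (Φ z : ℂ)) x‖ ≤ L := by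
    intro x _
    have := hL x
    rw [norm_iteratedFDeriv_one] at this
    simpa using this
  have h2 : ∀ x ∈ (Set.univ : Set (V n)), DifferentiableAt ℝ (fun z => (Φ z : ℂ)) x := by
    intro x _
    exact (hc.differentiable (by simp)).differentiableAt
  have h3 := convex_univ.norm_image_sub_le_of_norm_fderiv_le (𝕜 := ℝ) h2 h1
    (Set.mem_univ z) (Set.mem_univ w)
  have h4 : ‖(Φ w : ℂ) - (Φ z : ℂ)‖ = |Φ w - Φ z| := by
    rw [← Complex.ofReal_sub, Complex.norm_real, Real.norm_eq_abs]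
  rw [h4] at h3
  linarith [le_abs_self (Φ w - Φ z)]

lemma gr_wd (hWD : S_WD) (Φ : V n → ℝ) (hΦ : ContDiff ℝ ∞ Φ) (hs : Sym 1 (fun z => (Φ z : ℂ)))
    (s : ℤ) (f : V n → ℂ) (j : Fin n) (hf : Gr Φ s f) : Gr Φ s (wd j f) := by
  obtain ⟨hE, C, hC⟩ := hf
  obtain ⟨-, hEw, hw, -⟩ := (hWD n j).2.2.2.2 f hE
  obtain ⟨L, hL⟩ := lip Φ hΦ hs
  have hC0 : 0 ≤ C := by
    have h0 := hC 0
    have h1 : 0 < (1 + nm (0 : V n)) ^ s * Real.exp (Φ 0) := by
      have := nm_nonneg (0 : V n)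
      positivity
    by_contra hneg
    push Not at hneg
    have h2 : C * (1 + nm (0 : V n)) ^ s * Real.exp (Φ 0) < 0 := by
      rw [mul_assoc]
      exact mul_neg_of_neg_of_pos hneg h1
    linarith [norm_nonneg (f 0)]
  refine ⟨hEw, C * 2 ^ s.natAbs * Real.exp L, fun z => ?_⟩
  rw [hw z]
  -- one variable function
  have hd1 : ∀ ζ : ℂ, HasDerivAt (fun ζ : ℂ => z + ζ • (Pi.single j (1 : ℂ) : V n))
      (Pi.single j (1 : ℂ) : V n) ζ := by
    intro ζ
    have := ((hasDerivAt_id ζ).smul_const (Pi.single j (1 : ℂ) : V n)).const_add z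
    simpa using this
  have hd : ∀ ζ : ℂ, HasDerivAt (fun ζ : ℂ => f (z + ζ • (Pi.single j (1 : ℂ) : V n)))
      (fderiv ℂ f (z + ζ • (Pi.single j (1 : ℂ) : V n)) (Pi.single j 1)) ζ := by
    intro ζ
    exact ((hE (z + ζ • (Pi.single j (1 : ℂ) : V n))).hasFDerivAt).comp_hasDerivAt ζ (hd1 ζ)
  have hdiff : Differentiable ℂ (fun ζ : ℂ => f (z + ζ • (Pi.single j (1 : ℂ) : V n))) :=
    fun ζ => (hd ζ).differentiableAt
  have hval : deriv (fun ζ : ℂ => f (z + ζ • (Pi.single j (1 : ℂ) : V n))) 0 =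
      fderiv ℂ f z (Pi.single j 1) := by
    have := (hd 0).deriv
    simpa using this
  have hbd : ∀ ζ ∈ Metric.sphere (0 : ℂ) 1,
      ‖f (z + ζ • (Pi.single j (1 : ℂ) : V n))‖ ≤
        C * 2 ^ s.natAbs * Real.exp L * (1 + nm z) ^ s * Real.exp (Φ z) := by
    intro ζ hζ
    have hζ1 : ‖ζ‖ = 1 := by simpa using hζ
    set v : V n := ζ • (Pi.single j (1 : ℂ) : V n) with hv
    have hvs : v = Pi.single j ζ := by
      rw [hv]
      ext i
      by_cases h : i = j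
      · subst h; simp
      · simp [h]
    have hnv : nm v = 1 := by rw [hvs, nm_single, hζ1]
    have hnv' : ‖v‖ ≤ 1 := by
      rw [pi_norm_le_iff_of_nonneg zero_le_one]
      intro i
      exact (norm_le_nm v i).trans hnv.le
    have h1 : nm (z + v) ≤ nm z + 1 := by
      have := nm_add_le z v
      rw [hnv] at this; exact this
    have h2 : nm z ≤ nm (z + v) + 1 := by
      have := nm_add_le (z + v) (-v)
      rw [nm_neg, hnv, add_neg_cancel_right] at this
      exact this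
    have h3 : (1 + nm (z + v)) ^ s ≤ 2 ^ s.natAbs * (1 + nm z) ^ s := by
      apply zpow_cmp
      · linarith [nm_nonneg (z + v)]
      · linarith [nm_nonneg z]
      · linarith [nm_nonneg z]
      · linarith [nm_nonneg (z + v)]
    have hL0 : 0 ≤ L ∨ L < 0 := le_or_gt 0 L
    have h4 : Φ (z + v) ≤ Φ z + L := by
      have h5 := hL z (z + v)
      rw [add_sub_cancel_left] at h5
      have h6 : ‖v‖ = 1 := by
        apply le_antisymm hnv'
        have := norm_le_pi_norm v j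
        rw [hvs] at this
        simp only [Pi.single_eq_same] at this
        rw [hζ1] at this
        rw [hvs]; exact this
      rw [h6] at h5
      linarith
    calc ‖f (z + v)‖ ≤ C * (1 + nm (z + v)) ^ s * Real.exp (Φ (z + v)) := hC _
      _ ≤ C * (2 ^ s.natAbs * (1 + nm z) ^ s) * Real.exp (Φ z + L) := by
          have : 0 ≤ (1 + nm (z + v)) ^ s := by
            have := nm_nonneg (z + v); positivity
          have h7 : 0 ≤ 2 ^ s.natAbs * (1 + nm z) ^ s := by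
            have := nm_nonneg z; positivity
          apply mul_le_mul
          · exact mul_le_mul_of_nonneg_left h3 hC0
          · exact Real.exp_le_exp.mpr h4
          · exact (Real.exp_pos _).le
          · exact mul_nonneg hC0 h7
      _ = C * 2 ^ s.natAbs * Real.exp L * (1 + nm z) ^ s * Real.exp (Φ z) := by
          rw [Real.exp_add]; ring
  have hfin := Complex.norm_deriv_le_of_forall_mem_sphere_norm_le (c := (0 : ℂ)) (R := 1)
    (f := fun ζ : ℂ => f (z + ζ • (Pi.single j (1 : ℂ) : V n))) one_pos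
    hdiff.diffContOnCl hbd
  rw [hval, div_one] at hfin
  exact hfin

lemma gr_add (Φ : V n → ℝ) (s : ℤ) (f g : V n → ℂ) (hf : Gr Φ s f) (hg : Gr Φ s g) :
    Gr Φ s (fun z => f z + g z) := by
  obtain ⟨hE, C, hC⟩ := hf
  obtain ⟨hE', C', hC'⟩ := hg
  refine ⟨fun z => (hE z).add (hE' z), C + C', fun z => ?_⟩
  calc ‖f z + g z‖ ≤ ‖f z‖ + ‖g z‖ := norm_add_le _ _
    _ ≤ C * (1 + nm z) ^ s * Real.exp (Φ z) + C' * (1 + nm z) ^ s * Real.exp (Φ z) :=
        add_le_add (hC z) (hC' z)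
    _ = _ := by ring

lemma gr_smul (Φ : V n → ℝ) (s : ℤ) (f : V n → ℂ) (c : ℂ) (hf : Gr Φ s f) :
    Gr Φ s (fun z => c * f z) := by
  obtain ⟨hE, C, hC⟩ := hf
  refine ⟨fun z => (hE z).const_mul c, ‖c‖ * C, fun z => ?_⟩
  rw [norm_mul]
  calc ‖c‖ * ‖f z‖ ≤ ‖c‖ * (C * (1 + nm z) ^ s * Real.exp (Φ z)) :=
        mul_le_mul_of_nonneg_left (hC z) (norm_nonneg c)
    _ = _ := by ring

lemma gr_zero (Φ : V n → ℝ) (s : ℤ) : Gr Φ s (fun _ => (0 : ℂ)) := by
  refine ⟨fun z => differentiableAt_const _, 0, fun z => ?_⟩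
  simp

lemma gr_nonneg (Φ : V n → ℝ) (s : ℤ) (f : V n → ℂ) (hf : Gr Φ s f) :
    ∃ C : ℝ, 0 ≤ C ∧ ∀ z, ‖f z‖ ≤ C * (1 + nm z) ^ s * Real.exp (Φ z) := by
  obtain ⟨-, C, hC⟩ := hf
  refine ⟨|C|, abs_nonneg C, fun z => (hC z).trans ?_⟩
  have h1 := nm_nonneg z
  have h2 : 0 ≤ (1 + nm z) ^ s * Real.exp (Φ z) := by positivity
  rw [mul_assoc, mul_assoc]
  exact mul_le_mul_of_nonneg_right (le_abs_self C) h2

lemma gr_mono (Φ : V n → ℝ) (s t : ℤ) (f : V n → ℂ) (hst : s ≤ t) (hf : Gr Φ s f) :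
    Gr Φ t f := by
  obtain ⟨C, hC0, hC⟩ := gr_nonneg Φ s f hf
  refine ⟨hf.1, C, fun z => (hC z).trans ?_⟩
  have h1 := nm_nonneg z
  have h2 : (1 + nm z) ^ s ≤ (1 + nm z) ^ t := zpow_le_zpow_right₀ (by linarith) hst
  have h3 := Real.exp_pos (Φ z)
  gcongr

lemma poly_bd (P : Pol n) : ∃ K : ℝ, 0 ≤ K ∧ ∀ z : V n,
    ‖MvPolynomial.eval z P‖ ≤ K * (1 + nm z) ^ P.totalDegree := by
  refine ⟨∑ α ∈ P.support, ‖P.coeff α‖, Finset.sum_nonneg fun _ _ => norm_nonneg _, fun z => ?_⟩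
  rw [MvPolynomial.eval_eq', Finset.sum_mul]
  refine (norm_sum_le _ _).trans (Finset.sum_le_sum fun α hα => ?_)
  rw [norm_mul]
  apply mul_le_mul_of_nonneg_left _ (norm_nonneg _)
  rw [norm_prod]
  have h1 := nm_nonneg z
  calc ∏ i, ‖z i ^ α i‖ ≤ ∏ i, (1 + nm z) ^ α i := by
        apply Finset.prod_le_prod
        · intro i _; exact norm_nonneg _
        · intro i _
          rw [norm_pow]
          apply pow_le_pow_left₀ (norm_nonneg _)
          linarith [norm_le_nm z i]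
    _ = (1 + nm z) ^ (∑ i, α i) := by rw [Finset.prod_pow_eq_pow_sum]
    _ ≤ (1 + nm z) ^ P.totalDegree := by
        apply pow_le_pow_right₀ (by linarith)
        have h2 := MvPolynomial.le_totalDegree hα
        have h3 : (α.sum fun _ e => e) = ∑ i, α i := by
          rw [Finsupp.sum_fintype]
          intro i; rfl
        rw [h3] at h2
        exact h2

lemma eval_diff (P : Pol n) : Differentiable ℂ (fun z : V n => MvPolynomial.eval z P) := by
  have : (fun z : V n => MvPolynomial.eval z P) =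
      fun z => ∑ α ∈ P.support, P.coeff α * ∏ i, z i ^ α i := by
    funext z
    rw [MvPolynomial.eval_eq']
  rw [this]
  fun_prop

lemma gr_poly (Φ : V n → ℝ) (s : ℤ) (f : V n → ℂ) (P : Pol n) (hf : Gr Φ s f) :
    Gr Φ (s + P.totalDegree) (fun z => MvPolynomial.eval z P * f z) := by
  obtain ⟨C, hC0, hC⟩ := gr_nonneg Φ s f hf
  obtain ⟨K, hK0, hK⟩ := poly_bd P
  refine ⟨fun z => (eval_diff P z).mul (hf.1 z), K * C, fun z => ?_⟩
  have h1 := nm_nonneg z
  have h2 : (1 + nm z) ≠ 0 := by positivity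
  rw [norm_mul, zpow_add₀ h2, zpow_natCast]
  calc ‖MvPolynomial.eval z P‖ * ‖f z‖ ≤
      (K * (1 + nm z) ^ P.totalDegree) * (C * (1 + nm z) ^ s * Real.exp (Φ z)) := by
        apply mul_le_mul (hK z) (hC z) (norm_nonneg _)
        positivity
    _ = _ := by ring

lemma gr_dl (hWD : S_WD) (Φ : V n → ℝ) (hΦ : ContDiff ℝ ∞ Φ)
    (hs : Sym 1 (fun z => (Φ z : ℂ))) (s : ℤ) (f : V n → ℂ) (hf : Gr Φ s f)
    (l : List (Fin n)) : Gr Φ s (dl l f) := by
  induction l with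
  | nil => simpa [dl] using hf
  | cons j l ih =>
    have : dl (j :: l) f = wd j (dl l f) := by simp [dl]
    rw [this]
    exact gr_wd hWD Φ hΦ hs s _ j ih

lemma gr_sum (Φ : V n → ℝ) (s : ℤ) {ι : Type} (S : Finset ι) (F : ι → V n → ℂ)
    (h : ∀ i ∈ S, Gr Φ s (F i)) : Gr Φ s (fun z => ∑ i ∈ S, F i z) := by
  classical
  induction S using Finset.induction_on with
  | empty => simpa using gr_zero Φ s
  | insert a S ha ih =>
    simp only [Finset.sum_insert ha]
    exact gr_add Φ s _ _ (h a (Finset.mem_insert_self a S))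
      (ih fun i hi => h i (Finset.mem_insert_of_mem hi))

theorem main (hWD : S_WD) : S_GR2 := by
  intro n Φ hΦ hs
  refine ⟨fun s f j hf => gr_wd hWD Φ hΦ hs s f j hf, fun s f g => gr_add Φ s f g,
    fun s f c => gr_smul Φ s f c, fun s t f => gr_mono Φ s t f,
    fun s f P => gr_poly Φ s f P, fun s f P hf => ?_⟩
  unfold PD
  exact gr_sum Φ s P.support (fun α z => P.coeff α * dl (wl α) f z)
    fun α _ => gr_smul Φ s _ _ (gr_dl hWD Φ hΦ hs s f hf (wl α))

end Pool.Agent.Helper45.FN.GR2
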